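import Pool.Agent.Helper89.OS.St2

/-! # Project OS (MP_2b6189_al), module DRE: the dimensions in the principal block -/

set_option autoImplicit false

namespace Pool.Agent.Helper79.OS

open Matrix ComplexConjugate Pool.Agent.Helper94.YF Pool.Agent.Helper94.YG Pool.Agent.Helper89.OS

theorem hDRE : StDRE := by
  intro hSTL hHEC hMZZ I _ _ p X Q hB
  classical
  obtain ⟨-, -, hex, -, hg2, -, -⟩ := hMZZ I p X
  have hsz : ∀ k, ∑ i, X.s k i * ((X.z i : ℤ) : ℂ) = ((X.d k : ℤ) : ℂ) := by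
    intro k
    rw [X.sz k]
    push_cast
    rfl
  obtain ⟨h1, h2⟩ := hSTL hHEC I p X Q hB X.z (fun i => (X.d i : ℤ)) X.pi_z X.z_t
    (fun k _ => (hsz k).symm)
  have hdo : ((X.d X.o : ℕ) : ℤ) = 1 := by rw [X.d_o]; rfl
  have hA : ∀ j, X.y j ≠ 0 → X.t j = 1 → j ≠ X.o → ((p : ℤ) - X.y X.o) * X.d j =
      (p * X.z X.o - 1) * X.y j + ((p : ℤ) - X.y X.o) * (p * X.z j) := by
    intro j hy ht hj
    have h := h1 j hy ht
    rw [if_neg hj] at h
    simp only [hdo] at h
    linear_combination -h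
  have hC : ∀ j, X.y j ≠ 0 → X.t j ≠ 1 →
      ((p : ℤ) - X.y X.o) * X.d j = (p * X.z X.o - 1) * X.y j := by
    intro j hy ht
    have h := h2 j hy ht
    rw [hsz j] at h
    simp only [hdo] at h
    have h' : ((((p : ℤ) - X.y X.o) * X.d j : ℤ) : ℂ) = (((p * X.z X.o - 1) * X.y j : ℤ) : ℂ) := by
      push_cast
      push_cast at h
      linear_combination h
    exact_mod_cast h'
  refine ⟨hA, hC, ?_, ?_⟩
  · have h := hHEC I p X (fun i => ((X.z i : ℤ) : ℂ)) (fun c i => by simp only [X.pi_z c i])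
      (fun i hi => X.z_t i (by exact_mod_cast hi)) X.o
    simp only [hsz] at h
    rw [if_pos X.t_o] at h
    have h3 : ∀ k, X.s X.o k = (X.y k : ℂ) := fun k => by rw [X.s_symm, X.s_o]
    simp only [h3, hdo] at h
    have h4 : (((∑ k, if X.t k = 1 then X.y k * (X.d k : ℤ) else 0) : ℤ) : ℂ) =
        ((p * X.z X.o + p - 1 : ℤ) : ℂ) := by
      push_cast
      push_cast at h
      rw [h]
      ring
    exact_mod_cast h4
  · intro h0
    obtain ⟨k, hk, htk⟩ := hex
    have h := hC k hk htk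
    rw [h0, zero_mul] at h
    have hd : (0 : ℤ) < X.d k := by exact_mod_cast X.d_pos k
    have : (0 : ℤ) < ((p : ℤ) - X.y X.o) * X.d k := mul_pos (by omega) hd
    omega

end Pool.Agent.Helper79.OS
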