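import Pool.Agent.Helper89.OS.St2
import Pool.Agent.Helper94.YF.M_RAT

/-! # Project OS (MP_2b6189_al), module PAR: parity of `z` at the fixed points of `pi (-1)` -/

set_option autoImplicit false

namespace Pool.Agent.Helper79.OS

open Matrix ComplexConjugate Pool.Agent.Helper94.YF Pool.Agent.Helper94.YG Pool.Agent.Helper89.OS

lemma sq_sum_two {I : Type} [DecidableEq I] (S : Finset I) (f : I → ℂ)
    (hf : ∀ i, IsIntegral ℤ (f i)) :
    ∃ w : ℂ, IsIntegral ℤ w ∧ (∑ i ∈ S, f i) ^ 2 = ∑ i ∈ S, f i ^ 2 + 2 * w := by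
  induction S using Finset.induction_on with
  | empty => exact ⟨0, isIntegral_zero, by simp⟩
  | insert a S ha ih =>
    obtain ⟨w, hw, h⟩ := ih
    refine ⟨w + f a * ∑ i ∈ S, f i, hw.add ((hf a).mul (IsIntegral.sum _ fun i _ => hf i)), ?_⟩
    rw [Finset.sum_insert ha, Finset.sum_insert ha, add_sq, h]
    ring

/-- `z j` is odd if `j` is fixed by `pi (-1)`. -/
theorem par (hR : StRAT) {I : Type} [Fintype I] [DecidableEq I] {p a : ℕ} (X : PD I p a) (j : I)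
    (hj : X.pi (-1) j = j) : Odd (X.z j) := by
  have hdodd : ∀ k, Odd (X.d k) := by
    intro k
    have h1 : Odd (p * X.m) := X.p_odd.mul X.m_odd
    exact Odd.of_dvd_nat h1 (X.d_dvd k)
  have hnat : ∀ n : ℕ, IsIntegral ℤ ((n : ℕ) : ℂ) := fun n => by
    have := isIntegral_algebraMap (R := ℤ) (A := ℂ) (x := (n : ℤ))
    simpa using this
  obtain ⟨w, hw, h⟩ := sq_sum_two Finset.univ (fun k => X.s j k * (X.d k : ℂ))
    (fun k => (X.s_int j k).mul (hnat _))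
  rw [X.sd j] at h
  have h2 : ∀ k, ∃ e : ℕ, X.d k ^ 2 = 1 + 2 * e := by
    intro k
    obtain ⟨r, hr⟩ := (hdodd k).pow (n := 2)
    exact ⟨r, by omega⟩
  choose e he using h2
  have h3 : ∑ k, (X.s j k * (X.d k : ℂ)) ^ 2 =
      (p : ℂ) ^ 2 + 2 * ∑ k, X.s j k ^ 2 * (e k : ℂ) := by
    have h4 := X.weil0 j j
    rw [hj, if_pos rfl] at h4
    rw [← h4, Finset.mul_sum, ← Finset.sum_add_distrib]
    refine Finset.sum_congr rfl fun k _ => ?_
    have h5 : ((X.d k : ℂ)) ^ 2 = 1 + 2 * (e k : ℂ) := by exact_mod_cast he k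
    rw [X.s_symm k j, mul_pow, h5]
    ring
  rw [h3] at h
  have hW : IsIntegral ℤ ((∑ k, X.s j k ^ 2 * (e k : ℂ)) + w) :=
    (IsIntegral.sum _ fun k _ => ((X.s_int j k).pow 2).mul (hnat _)).add hw
  obtain ⟨M, hM⟩ := hR.2 ((((p : ℚ) ^ 2 * X.z j) ^ 2 - (p : ℚ) ^ 2) / 2) (by
    have h6 : (((((p : ℚ) ^ 2 * X.z j) ^ 2 - (p : ℚ) ^ 2) / 2 : ℚ) : ℂ) =
        (∑ k, X.s j k ^ 2 * (e k : ℂ)) + w := by
      push_cast
      rw [h]
      ring
    rw [h6]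
    exact hW)
  have h7 : ((p : ℤ) ^ 2 * X.z j) ^ 2 - (p : ℤ) ^ 2 = 2 * M := by
    have h8 : ((((p : ℤ) ^ 2 * X.z j) ^ 2 - (p : ℤ) ^ 2 : ℤ) : ℚ) = ((2 * M : ℤ) : ℚ) := by
      push_cast
      rw [hM]
      ring
    exact_mod_cast h8
  by_contra hne
  rw [Int.not_odd_iff_even] at hne
  have hp : Odd ((p : ℤ) ^ 2) := (by exact_mod_cast X.p_odd : Odd (p : ℤ)).pow
  have h9 : Even (((p : ℤ) ^ 2 * X.z j) ^ 2) := (hne.mul_left _).pow_of_ne_zero (by norm_num)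
  have h10 : Odd (((p : ℤ) ^ 2 * X.z j) ^ 2 - (p : ℤ) ^ 2) := h9.sub_odd hp
  rw [h7] at h10
  exact (Int.not_odd_iff_even.2 (even_two_mul M)) h10

/-- `par` without the hypothesis `StRAT`. -/
theorem hPAR : ∀ (I : Type) [Fintype I] [DecidableEq I] (p a : ℕ) (X : PD I p a) (j : I),
    X.pi (-1) j = j → Odd (X.z j) :=
  fun _ _ _ _ _ X j h => par Pool.Agent.Helper94.YF.hRAT' X j h

end Pool.Agent.Helper79.OS
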